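import Mathlib

set_option autoImplicit false

/-! # Project KS (helper838): minimal `K_σ` realizations of non-smooth aperiodic countable Borel
equivalence relations.  Statements of the packages. -/

namespace Pool.Agent.R838.KS

open Set Topology

/-- Package GEC. The embedding of `E_0` in a non-smooth relation: the invariant hull of its image,
written as the image of clopen sets `P i × {i}`. -/
def S_GEC : Prop :=
  ∀ (X : Type) [MeasurableSpace X] [StandardBorelSpace X] (s : ℕ → X → X),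
    (∀ n, Measurable (s n)) → (∀ n x, s n (s n x) = x) →
    ∀ E : X → X → Prop, Equivalence E → (∀ x y, E x y ↔ ∃ n, s n x = y) →
    (¬ ∃ T : Set X, MeasurableSet T ∧ ∀ x, ∃! y, y ∈ T ∧ E x y) →
    ∃ (P : ℕ → Set (ℕ → Bool)) (θ : ℕ → (ℕ → Bool) → X),
      P 0 = univ ∧ (∀ i, IsClopen (P i)) ∧ (∀ i, Measurable (θ i)) ∧
      (∀ i k x y, x ∈ P i → y ∈ P k → θ i x = θ k y → i = k ∧ x = y) ∧
      (∀ i k x y, E (θ i x) (θ k y) ↔ ∃ N, ∀ n, N ≤ n → x n = y n) ∧
      (∀ i x z, x ∈ P i → E (θ i x) z → ∃ k, ∃ y ∈ P k, θ k y = z)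

/-- Package BC. An aperiodic relation has a Borel partition `{ρ = n}` and Borel maps `g n` inside
the classes, from `{ρ = 0}` onto `{ρ = n}`, finite-to-one. -/
def S_BC : Prop :=
  ∀ (X : Type) [MeasurableSpace X] [StandardBorelSpace X] (s : ℕ → X → X),
    (∀ n, Measurable (s n)) → (∀ n x, s n (s n x) = x) →
    ∀ E : X → X → Prop, Equivalence E → (∀ x y, E x y ↔ ∃ n, s n x = y) →
    (∀ x, {y | E x y}.Infinite) →
    ∃ (ρ : X → ℕ) (g : ℕ → X → X), Measurable ρ ∧ (∀ n, Measurable (g n)) ∧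
      (∀ n x, ρ x = 0 → ρ (g n x) = n ∧ E x (g n x)) ∧
      ∀ n y, ρ y = n → {x | ρ x = 0 ∧ g n x = y}.Finite ∧ {x | ρ x = 0 ∧ g n x = y}.Nonempty

/-- Package ZD. A zero-dimensional Polish topology for which countably many Borel self maps and a
Borel map to `ℕ → ℕ` are continuous, given as a closed embedding in `ℕ → ℕ`. -/
def S_ZD : Prop :=
  ∀ (X : Type) [MeasurableSpace X] [StandardBorelSpace X] (s : ℕ → X → X),
    (∀ n, Measurable (s n)) → ∀ h : X → ℕ → ℕ, Measurable h →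
    ∃ (t : TopologicalSpace X) (q : X → ℕ → ℕ), (∀ n, @Continuous X X t t (s n)) ∧
      @Continuous X (ℕ → ℕ) t _ h ∧ Measurable q ∧ @IsClosedEmbedding X (ℕ → ℕ) t _ q

/-- Package CPT. A compactification of the Baire space with countable remainder. -/
def S_CPT : Prop :=
  ∃ (K : Type) (_ : TopologicalSpace K) (_ : CompactSpace K)
    (_ : TopologicalSpace.MetrizableSpace K) (φ : (ℕ → ℕ) → K), IsEmbedding φ ∧
      (closure (range φ) \ range φ).Countable

/-- Package FIB (uses S_BC, S_ZD, S_CPT). Compact codes for an aperiodic relation: points `x` with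
`ρ x = n` have codes `κ x` in the compact set `{l n | l ∈ Λ} ⊆ C`, up to countably many other
points of this compact set; all codes in a sequence of `Λ` are codes of equivalent points, or none
is a code; closures of the pieces `S k` of the relation do not contain new pairs with a member
which is a code. -/
def S_FIB : Prop :=
  ∀ (X : Type) [MeasurableSpace X] [StandardBorelSpace X] (s : ℕ → X → X),
    (∀ n, Measurable (s n)) → (∀ n x, s n (s n x) = x) →
    ∀ E : X → X → Prop, Equivalence E → (∀ x y, E x y ↔ ∃ n, s n x = y) →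
    (∀ x, {y | E x y}.Infinite) →
    ∃ (C : Type) (_ : TopologicalSpace C) (_ : CompactSpace C)
      (_ : TopologicalSpace.MetrizableSpace C) (_ : MeasurableSpace C) (_ : BorelSpace C)
      (ρ : X → ℕ) (κ : X → C) (Λ : Set (ℕ → C)),
      Measurable ρ ∧ Measurable κ ∧ Function.Injective κ ∧ IsClosed Λ ∧
      (∀ x, ∃ l ∈ Λ, l (ρ x) = κ x) ∧
      (∀ n x, ∃ y, E x y ∧ ρ y = n) ∧
      -- the remainder is countable, and nonempty in every fibre
      (∀ n, {c | (∃ l ∈ Λ, l n = c) ∧ ∀ x, ρ x = n → κ x ≠ c}.Countable ∧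
        {c | (∃ l ∈ Λ, l n = c) ∧ ∀ x, ρ x = n → κ x ≠ c}.Nonempty) ∧
      -- sequences in `Λ`
      (∀ l ∈ Λ, ∀ n m x, ρ x = n → κ x = l n → ∃ y, E x y ∧ ρ y = m ∧ κ y = l m) ∧
      -- the relation is `K_σ` up to pairs in the remainder
      (∀ n m k, ∀ c c' : C, (c, c') ∈ closure {p : C × C | ∃ x, ρ x = n ∧ ρ (s k x) = m ∧
          p = (κ x, κ (s k x))} →
        ((∀ x, ρ x = n → κ x = c → κ (s k x) = c' ∧ ρ (s k x) = m) ∧
          (∀ y, ρ y = m → κ y = c' → κ (s k y) = c ∧ ρ (s k y) = n)))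

/-- A minimal `K_σ` realization on a Polish space. -/
def HasMinK {X : Type} [MeasurableSpace X] (E : X → X → Prop) : Prop :=
  ∃ (Y : Type) (_ : TopologicalSpace Y) (_ : PolishSpace Y) (_ : MeasurableSpace Y)
    (_ : BorelSpace Y) (f : X ≃ᵐ Y),
    (∃ K : ℕ → Set (Y × Y), (∀ n, IsCompact (K n)) ∧
      {p : Y × Y | E (f.symm p.1) (f.symm p.2)} = ⋃ n, K n) ∧
    ∀ y, Dense {z | E (f.symm y) (f.symm z)}

/-- Package BLOW (helper838). The blow-up of `{(x, i) | x ∈ P i}` at the points `w n`. Points with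
`fib x = 0` are the points which are not blown up, `fib x = n + 1` means that `x` is in the fibre
over `w n`. -/
def S_BLOW : Prop :=
  ∀ (X : Type) [MeasurableSpace X] [StandardBorelSpace X] (E : X → X → Prop), Equivalence E →
    ∀ (C : Type) [TopologicalSpace C] [CompactSpace C] [TopologicalSpace.MetrizableSpace C]
      [MeasurableSpace C] [BorelSpace C] (P : ℕ → Set (ℕ → Bool)) (w : ℕ → (ℕ → Bool) × ℕ)
      (fib : X → ℕ) (nav : X → (ℕ → Bool) × ℕ) (κ : X → C) (Λ : Set (ℕ → C))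
      (S : ℕ → Set (X × X)),
    P 0 = univ → (∀ i, IsClopen (P i)) → Function.Injective w →
    (range w = {a | a.1 ∈ P a.2 ∧ ∃ N, ∀ n, N ≤ n → a.1 n = false}) →
    Measurable fib → Measurable nav → Measurable κ → IsClosed Λ → Λ.Nonempty →
    (∀ x n, fib x = n + 1 → nav x = w n ∧ ∃ l ∈ Λ, l n = κ x) →
    (∀ x, fib x = 0 → (nav x).1 ∈ P (nav x).2 ∧ nav x ∉ range w) →
    (∀ x y, fib x = 0 → fib y = 0 → nav x = nav y → x = y) →
    (∀ x y n, fib x = n + 1 → fib y = n + 1 → κ x = κ y → x = y) →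
    (∀ a : (ℕ → Bool) × ℕ, a.1 ∈ P a.2 → a ∉ range w → ∃ x, fib x = 0 ∧ nav x = a) →
    (∀ n, ∀ l ∈ Λ, ∃ x, fib x = n + 1 ∧ κ x = l n) →
    (∀ x y, fib x = 0 → fib y = 0 →
      (E x y ↔ ∃ N, ∀ n, N ≤ n → (nav x).1 n = (nav y).1 n)) →
    (∀ x y, fib x = 0 → fib y ≠ 0 → ¬ E x y) →
    (∀ l ∈ Λ, ∀ x y n m, fib x = n + 1 → fib y = m + 1 → κ x = l n → κ y = l m → E x y) →
    (∀ x y n, fib x = n + 1 → E x y → ∃ k, (x, y) ∈ S k) →
    (∀ k, ∃ n m, (∀ p ∈ S k, fib p.1 = n + 1 ∧ fib p.2 = m + 1) ∧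
      ∀ x y, fib x = n + 1 → fib y = m + 1 →
        (κ x, κ y) ∈ closure ((fun p : X × X => (κ p.1, κ p.2)) '' S k) → E x y) →
    (∀ x n m, fib x = n + 1 → ∃ y, E x y ∧ fib y = m + 1) →
    HasMinK E

/-- The answer to Q2. -/
def S_MAIN : Prop :=
  ∀ (X : Type) [MeasurableSpace X] [StandardBorelSpace X] (E : X → X → Prop), Equivalence E →
    MeasurableSet {p : X × X | E p.1 p.2} → (∀ x, {y | E x y}.Countable) →
    (∀ x, {y | E x y}.Infinite) → (¬ ∃ T : Set X, MeasurableSet T ∧ ∀ x, ∃! y, y ∈ T ∧ E x y) →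
    HasMinK E

end Pool.Agent.R838.KS
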