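import Mathlib
import Pool.Agent.R838.KS.Stm

set_option autoImplicit false

/-! # Preparations for the blow-up -/

namespace Pool.Agent.R838.KS

open Set TopologicalSpace Filter PiNat
open scoped Topology

abbrev A0 : Type := (ℕ → Bool) × ℕ

open Classical in
/-- how close `a` is to `w` -/
noncomputable def lev (a w : A0) : ℕ := if a.2 = w.2 then firstDiff a.1 w.1 else 0

theorem firstDiff_eq_of {z z' w : ℕ → Bool} (hz : z ≠ w)
    (h : ∀ i, i ≤ firstDiff z w → z' i = z i) : z' ≠ w ∧ firstDiff z' w = firstDiff z w := by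
  have h3 : z' (firstDiff z w) ≠ w (firstDiff z w) := by
    rw [h _ le_rfl]
    exact apply_firstDiff_ne hz
  have h4 : z' ≠ w := fun h => h3 (congrFun h _)
  refine ⟨h4, le_antisymm ?_ ?_⟩
  · by_contra hcon
    push Not at hcon
    exact h3 (apply_eq_of_lt_firstDiff hcon)
  · rw [← mem_cylinder_iff_le_firstDiff h4, mem_cylinder_iff]
    intro i hi
    rw [h i hi.le]
    exact apply_eq_of_lt_firstDiff hi

theorem lev_locally (w a : A0) (ha : a ≠ w) : ∀ᶠ a' in 𝓝 a, a' ≠ w ∧ lev a' w = lev a w := by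
  have h2 : ∀ᶠ a' : A0 in 𝓝 a, a'.2 = a.2 :=
    (continuous_snd.continuousAt (x := a)).eventually
      ((isOpen_discrete ({a.2} : Set ℕ)).mem_nhds rfl)
  by_cases h : a.2 = w.2
  · have hne : a.1 ≠ w.1 := fun h' => ha (Prod.ext h' h)
    have h1 : ∀ᶠ a' : A0 in 𝓝 a, a'.1 ∈ cylinder a.1 (firstDiff a.1 w.1 + 1) :=
      (continuous_fst.continuousAt (x := a)).eventually
        ((isOpen_cylinder (fun _ => Bool) a.1 _).mem_nhds (self_mem_cylinder a.1 _))
    filter_upwards [h1, h2] with a' h1' h2'
    have h3 := firstDiff_eq_of (z' := a'.1) hne (fun i hi => by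
      rw [mem_cylinder_iff] at h1'
      exact h1' i (by omega))
    refine ⟨fun h' => h3.1 (congrArg Prod.fst h'), ?_⟩
    unfold lev
    rw [if_pos (h2'.trans h), if_pos h, h3.2]
  · filter_upwards [h2] with a' h2'
    have h3 : a'.2 ≠ w.2 := by rw [h2']; exact h
    refine ⟨fun h' => h3 (congrArg Prod.snd h'), ?_⟩
    unfold lev
    rw [if_neg h3, if_neg h]

theorem measurable_lev (w : A0) : Measurable (fun a => lev a w) := by
  refine measurable_to_countable' (fun k => ?_)
  have h1 : IsOpen {a : A0 | a ≠ w ∧ lev a w = k} := by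
    rw [isOpen_iff_eventually]
    rintro a ⟨ha, hk⟩
    filter_upwards [lev_locally w a ha] with a' ha'
    exact ⟨ha'.1, ha'.2.trans hk⟩
  by_cases h : lev w w = k
  · have e1 : (fun a => lev a w) ⁻¹' {k} = {a : A0 | a ≠ w ∧ lev a w = k} ∪ {w} := by
      ext a
      simp only [mem_preimage, mem_singleton_iff, mem_union, mem_ofPred_eq]
      constructor
      · intro ha
        by_cases haw : a = w
        · exact Or.inr haw
        · exact Or.inl ⟨haw, ha⟩
      · rintro (ha | rfl)
        · exact ha.2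
        · exact h
    rw [e1]
    exact h1.measurableSet.union (measurableSet_singleton _)
  · have e1 : (fun a => lev a w) ⁻¹' {k} = {a : A0 | a ≠ w ∧ lev a w = k} := by
      ext a
      simp only [mem_preimage, mem_singleton_iff, mem_ofPred_eq]
      constructor
      · intro ha
        refine ⟨?_, ha⟩
        rintro rfl
        exact h ha
      · exact fun ha => ha.2
    rw [e1]
    exact h1.measurableSet

theorem firstDiff_congr {u u' v v' : ℕ → Bool} (hne : u' ≠ u)
    (h : ∀ k, u' k ≠ u k ↔ v' k ≠ v k) : firstDiff u' u = firstDiff v' v := by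
  have h1 := apply_firstDiff_ne hne
  have h2 := (h _).1 h1
  have hne' : v' ≠ v := fun h => h2 (congrFun h _)
  have h3 := apply_firstDiff_ne hne'
  refine le_antisymm ?_ ?_
  · by_contra hcon
    push Not at hcon
    exact (h _).2 h3 (apply_eq_of_lt_firstDiff hcon)
  · by_contra hcon
    push Not at hcon
    exact h2 (apply_eq_of_lt_firstDiff hcon)

/-- flipping the `k`-th digit -/
def flip (d : ℕ → Bool) (k : ℕ) : ℕ → Bool := Function.update d k (!(d k))

theorem flip_ne (d : ℕ → Bool) (k : ℕ) : flip d k ≠ d := by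
  intro h
  have := congrFun h k
  simp [flip] at this

theorem firstDiff_flip (d : ℕ → Bool) (k : ℕ) : firstDiff (flip d k) d = k := by
  have h1 := apply_firstDiff_ne (flip_ne d k)
  by_contra hcon
  apply h1
  exact Function.update_of_ne hcon _ _

theorem tendsto_flip (d : ℕ → Bool) : Tendsto (fun k => flip d k) atTop (𝓝 d) := by
  rw [tendsto_pi_nhds]
  intro i
  refine tendsto_const_nhds.congr' ?_
  filter_upwards [eventually_gt_atTop i] with k hk
  exact (Function.update_of_ne (by omega) _ _).symm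

/-- a sequence in `Λ` which is dense and visits every open set infinitely often -/
theorem exists_seq {T : Type} [TopologicalSpace T] [SecondCountableTopology T] (L : Set T)
    (hL : L.Nonempty) : ∃ ξ : ℕ → T, (∀ k, ξ k ∈ L) ∧
      ∀ O : Set T, IsOpen O → (O ∩ L).Nonempty → ∃ᶠ k in atTop, ξ k ∈ O := by
  have : Nonempty L := hL.to_subtype
  refine ⟨fun k => (denseSeq L (Nat.unpair k).1).1, fun k => (denseSeq L (Nat.unpair k).1).2, ?_⟩
  rintro O hO ⟨x, hxO, hxL⟩
  have hO' : IsOpen ((Subtype.val : L → T) ⁻¹' O) := hO.preimage continuous_subtype_val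
  obtain ⟨z, hz1, j, rfl⟩ := (denseRange_denseSeq L).inter_open_nonempty _ hO' ⟨⟨x, hxL⟩, hxO⟩
  rw [Filter.frequently_atTop]
  intro a
  refine ⟨Nat.pair j a, Nat.right_le_pair _ _, ?_⟩
  show (denseSeq L (Nat.unpair (Nat.pair j a)).1).1 ∈ O
  rw [Nat.unpair_pair]
  exact hz1

theorem isClopen_A (P : ℕ → Set (ℕ → Bool)) (hP : ∀ i, IsClopen (P i)) :
    IsClopen {a : A0 | a.1 ∈ P a.2} := by
  constructor
  · rw [← isOpen_compl_iff]
    have e1 : {a : A0 | a.1 ∈ P a.2}ᶜ = ⋃ i, (Prod.fst ⁻¹' (P i)ᶜ ∩ Prod.snd ⁻¹' {i}) := by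
      ext a
      simp
    rw [e1]
    exact isOpen_iUnion fun i => ((hP i).1.isOpen_compl.preimage continuous_fst).inter
      ((isOpen_discrete _).preimage continuous_snd)
  · have e1 : {a : A0 | a.1 ∈ P a.2} = ⋃ i, (Prod.fst ⁻¹' (P i) ∩ Prod.snd ⁻¹' {i}) := by
      ext a
      simp
    rw [e1]
    exact isOpen_iUnion fun i => ((hP i).2.preimage continuous_fst).inter
      ((isOpen_discrete _).preimage continuous_snd)

end Pool.Agent.R838.KS
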