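import Mathlib
import Pool.Agent.R838.KS.Stm
import Pool.Agent.R838.KS.BlowA

set_option autoImplicit false

/-! # The blow-up -/

namespace Pool.Agent.R838.KS

open Set TopologicalSpace Filter PiNat
open scoped Topology

section

variable {C : Type} [TopologicalSpace C]

/-- The carrier. -/
def YS (P : ℕ → Set (ℕ → Bool)) (w : ℕ → A0) (Λ : Set (ℕ → C)) (ξ : ℕ → ℕ → C) :
    Set (A0 × (ℕ → C)) :=
  {y | y.1.1 ∈ P y.1.2 ∧ ∀ n, (∃ l ∈ Λ, l n = y.2 n) ∧ (y.1 ≠ w n → y.2 n = ξ (lev y.1 (w n)) n)}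

variable {P : ℕ → Set (ℕ → Bool)} {w : ℕ → A0} {Λ : Set (ℕ → C)} {ξ : ℕ → ℕ → C}

theorem YS_closed [CompactSpace C] [T2Space C] (hP : ∀ i, IsClopen (P i)) (hΛ : IsClosed Λ) :
    IsClosed (YS P w Λ ξ) := by
  have e1 : YS P w Λ ξ = (Prod.fst ⁻¹' {a : A0 | a.1 ∈ P a.2}) ∩ ⋂ n,
      ({y : A0 × (ℕ → C) | y.2 n ∈ (fun l : ℕ → C => l n) '' Λ} ∩
      {y : A0 × (ℕ → C) | y.1 ≠ w n → y.2 n = ξ (lev y.1 (w n)) n}) := by
    ext y
    simp only [YS, mem_iInter, mem_inter_iff, mem_preimage, mem_image]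
    rfl
  rw [e1]
  refine ((isClopen_A P hP).1.preimage continuous_fst).inter
    (isClosed_iInter (fun n => IsClosed.inter ?_ ?_))
  · have h1 : IsClosed ((fun l : ℕ → C => l n) '' Λ) :=
      (hΛ.isCompact.image (continuous_apply n)).isClosed
    exact h1.preimage ((continuous_apply n).comp continuous_snd)
  · rw [← isOpen_compl_iff, isOpen_iff_eventually]
    intro y hy
    have hy1 : y.1 ≠ w n ∧ y.2 n ≠ ξ (lev y.1 (w n)) n := by
      simpa only [mem_compl_iff, mem_ofPred_eq, Classical.not_imp] using hy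
    have h1 : ∀ᶠ y' in 𝓝 y, y'.1 ≠ w n ∧ lev y'.1 (w n) = lev y.1 (w n) :=
      continuous_fst.continuousAt.eventually (lev_locally (w n) y.1 hy1.1)
    have h2 : ∀ᶠ y' in 𝓝 y, y'.2 n ≠ ξ (lev y.1 (w n)) n := by
      have hc : Continuous (fun y' : A0 × (ℕ → C) => y'.2 n) :=
        (continuous_apply n).comp continuous_snd
      exact (hc.continuousAt (x := y)).eventually_ne hy1.2
    filter_upwards [h1, h2] with y' h1' h2'
    intro h
    have h3 := h h1'.1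
    rw [h1'.2] at h3
    exact h2' h3

/-- Every open set contains the part over some open set. -/
theorem exists_over (hP : ∀ i, IsClopen (P i)) (hw : Function.Injective w)
    (hξ2 : ∀ O : Set (ℕ → C), IsOpen O → (O ∩ Λ).Nonempty → ∃ᶠ k in atTop, ξ k ∈ O)
    (O : Set (A0 × (ℕ → C))) (hO : IsOpen O) (y : A0 × (ℕ → C)) (hy : y ∈ YS P w Λ ξ)
    (hyO : y ∈ O) :
    ∃ (u : ℕ → Bool) (i k : ℕ), ∀ v ∈ cylinder u k, v ∈ P i ∧
      ∀ z ∈ YS P w Λ ξ, z.1 = (v, i) → z ∈ O := by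
  classical
  obtain ⟨u1, v1, hu1, hv1, hyu, hyv, huv⟩ := isOpen_prod_iff.1 hO y.1 y.2 hyO
  obtain ⟨G, B, hB, hGB⟩ := isOpen_pi_iff.1 hv1 _ hyv
  let Q : A0 → Prop := fun b => b.1 ∈ P b.2 ∧ b ∈ u1 ∧ ∀ n ∈ G, b ≠ w n ∧ ξ (lev b (w n)) n ∈ B n
  have hQP : ∀ᶠ b : A0 in 𝓝 y.1, b.1 ∈ P b.2 := (isClopen_A P hP).2.mem_nhds hy.1
  have hQu : ∀ᶠ b : A0 in 𝓝 y.1, b ∈ u1 := hu1.mem_nhds hyu
  have key : ∃ b : A0, Q b := by
    by_cases hv0 : ∃ n0 ∈ G, y.1 = w n0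
    · obtain ⟨n0, hn0, hyn0⟩ := hv0
      obtain ⟨l, hl, hln⟩ := (hy.2 n0).1
      have h1 : ∃ᶠ k in atTop, ξ k ∈ {l' : ℕ → C | l' n0 ∈ B n0} := by
        refine hξ2 _ ((hB n0 hn0).1.preimage (continuous_apply n0)) ⟨l, ?_, hl⟩
        show l n0 ∈ B n0
        rw [hln]
        exact (hB n0 hn0).2
      have h2 : Tendsto (fun k => ((flip (w n0).1 k, (w n0).2) : A0)) atTop (𝓝 y.1) := by
        have := (tendsto_flip (w n0).1).prodMk_nhds (tendsto_const_nhds (x := (w n0).2))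
        rw [hyn0]
        exact this
      have h3 : ∀ᶠ b : A0 in 𝓝 y.1, b.1 ∈ P b.2 ∧ b ∈ u1 ∧
          ∀ n ∈ G, n ≠ n0 → b ≠ w n ∧ ξ (lev b (w n)) n ∈ B n := by
        refine hQP.and (hQu.and ?_)
        rw [Filter.eventually_all_finset]
        intro n hn
        by_cases hnn : n = n0
        · exact Eventually.of_forall (fun b h => absurd hnn h)
        · have hyw : y.1 ≠ w n := by
            rw [hyn0]
            exact fun h => hnn (hw h).symm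
          filter_upwards [lev_locally (w n) y.1 hyw] with b hb _
          refine ⟨hb.1, ?_⟩
          rw [hb.2, ← (hy.2 n).2 hyw]
          exact (hB n hn).2
      obtain ⟨k, hk1, hk2⟩ := (h1.and_eventually (h2.eventually h3)).exists
      refine ⟨(flip (w n0).1 k, (w n0).2), hk2.1, hk2.2.1, ?_⟩
      intro n hn
      by_cases hnn : n = n0
      · subst hnn
        refine ⟨fun h => flip_ne _ _ (congrArg Prod.fst h), ?_⟩
        have e1 : lev (flip (w n).1 k, (w n).2) (w n) = k := by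
          unfold lev
          rw [if_pos rfl]
          exact firstDiff_flip _ _
        rw [e1]
        exact hk1
      · exact hk2.2.2 n hn hnn
    · push Not at hv0
      refine ⟨y.1, hy.1, hyu, ?_⟩
      intro n hn
      refine ⟨hv0 n hn, ?_⟩
      rw [← (hy.2 n).2 (hv0 n hn)]
      exact (hB n hn).2
  obtain ⟨b0, hb0⟩ := key
  -- the conditions are open
  have hQ : ∀ᶠ b in 𝓝 b0, Q b := by
    have e1 : ∀ᶠ b : A0 in 𝓝 b0, b.1 ∈ P b.2 := (isClopen_A P hP).2.mem_nhds hb0.1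
    have e2 : ∀ᶠ b : A0 in 𝓝 b0, b ∈ u1 := hu1.mem_nhds hb0.2.1
    refine e1.and (e2.and ?_)
    rw [Filter.eventually_all_finset]
    intro n hn
    filter_upwards [lev_locally (w n) b0 (hb0.2.2 n hn).1] with b hb
    exact ⟨hb.1, by rw [hb.2]; exact (hb0.2.2 n hn).2⟩
  have hQ' : ∀ᶠ v in 𝓝 b0.1, Q (v, b0.2) := by
    have h1 : Tendsto (fun v : ℕ → Bool => ((v, b0.2) : A0)) (𝓝 b0.1) (𝓝 b0) :=
      (Continuous.prodMk_left b0.2).tendsto' _ _ rfl
    exact h1.eventually hQ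
  obtain ⟨V, ⟨z', n, rfl⟩, hzV, hVU⟩ :=
    (isTopologicalBasis_cylinders (fun _ : ℕ => Bool)).mem_nhds_iff.1 hQ'
  refine ⟨z', b0.2, n, fun v hv => ?_⟩
  have hv' : Q (v, b0.2) := hVU hv
  refine ⟨hv'.1, fun z hz hzv => ?_⟩
  refine huv ⟨?_, hGB ?_⟩
  · rw [hzv]
    exact hv'.2.1
  · intro m hm
    have h2 := hv'.2.2 m hm
    have h3 : z.1 ≠ w m := by rw [hzv]; exact h2.1
    rw [(hz.2 m).2 h3, hzv]
    exact h2.2

end

end Pool.Agent.R838.KS
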