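import Mathlib
import Pool.Agent.R838.KS.Stm
import Pool.Agent.R838.KS.BlowA
import Pool.Agent.R838.KS.BlowB

set_option autoImplicit false

/-! # The blow-up: the relation on the blown up space -/

namespace Pool.Agent.R838.KS

open Set TopologicalSpace Filter PiNat
open scoped Topology

section

variable {C : Type} [TopologicalSpace C] [CompactSpace C] [T2Space C]
  {P : ℕ → Set (ℕ → Bool)} {w : ℕ → A0} {Λ : Set (ℕ → C)} {ξ : ℕ → ℕ → C}

/-- closures of pairs of points which are not blown up -/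
theorem closure_pairs (hΛ : IsClosed Λ) (hξ1 : ∀ k, ξ k ∈ Λ)
    (i j N n m : ℕ) (p : YS P w Λ ξ × YS P w Λ ξ)
    (hp : p ∈ closure {q : YS P w Λ ξ × YS P w Λ ξ | q.1.1.1 ∉ range w ∧ q.2.1.1 ∉ range w ∧
      q.1.1.1.2 = i ∧ q.2.1.1.2 = j ∧ ∀ n, N ≤ n → q.1.1.1.1 n = q.2.1.1.1 n})
    (h1 : p.1.1.1 = w n) (h2 : p.2.1.1 = w m) (hi : p.1.1.1.2 = i) (hj : p.2.1.1.2 = j)
    (hN : ∀ n, N ≤ n → p.1.1.1.1 n = p.2.1.1.1 n) :
    ∃ l ∈ Λ, l n = p.1.1.2 n ∧ l m = p.2.1.2 m := by
  rw [mem_closure_iff_ultrafilter] at hp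
  obtain ⟨U, hU, hUp⟩ := hp
  -- the levels agree
  have hlev : ∀ᶠ q in (U : Filter (YS P w Λ ξ × YS P w Λ ξ)),
      q.1.1.2 n = ξ (lev q.1.1.1 (w n)) n ∧ q.2.1.2 m = ξ (lev q.1.1.1 (w n)) m := by
    have hc1 : Continuous (fun q : YS P w Λ ξ × YS P w Λ ξ => q.1.1.1.1) :=
      continuous_fst.comp (continuous_fst.comp (continuous_subtype_val.comp continuous_fst))
    have hc2 : Continuous (fun q : YS P w Λ ξ × YS P w Λ ξ => q.2.1.1.1) :=
      continuous_fst.comp (continuous_fst.comp (continuous_subtype_val.comp continuous_snd))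
    have e1 : ∀ᶠ q in (U : Filter (YS P w Λ ξ × YS P w Λ ξ)),
        q.1.1.1.1 ∈ cylinder p.1.1.1.1 N :=
      hUp ((hc1.continuousAt (x := p)).eventually
        ((isOpen_cylinder (fun _ => Bool) p.1.1.1.1 N).mem_nhds (self_mem_cylinder _ _)))
    have e2 : ∀ᶠ q in (U : Filter (YS P w Λ ξ × YS P w Λ ξ)),
        q.2.1.1.1 ∈ cylinder p.2.1.1.1 N :=
      hUp ((hc2.continuousAt (x := p)).eventually
        ((isOpen_cylinder (fun _ => Bool) p.2.1.1.1 N).mem_nhds (self_mem_cylinder _ _)))
    filter_upwards [hU, e1, e2] with q hq hq1 hq2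
    obtain ⟨hqa, hqb, hqi, hqj, hqN⟩ := hq
    rw [mem_cylinder_iff] at hq1 hq2
    have hne1 : q.1.1.1 ≠ w n := fun h => hqa ⟨n, h.symm⟩
    have hne2 : q.2.1.1 ≠ w m := fun h => hqb ⟨m, h.symm⟩
    have hs1 : q.1.1.1.2 = (w n).2 := by rw [hqi, ← hi, h1]
    have hs2 : q.2.1.1.2 = (w m).2 := by rw [hqj, ← hj, h2]
    have hlv : lev q.2.1.1 (w m) = lev q.1.1.1 (w n) := by
      unfold lev
      rw [if_pos hs1, if_pos hs2]
      refine firstDiff_congr (fun h => hne2 (Prod.ext h hs2)) (fun k => ?_)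
      by_cases hk : N ≤ k
      · rw [hqN k hk, ← h1, ← h2, hN k hk]
      · have hk' : k < N := by omega
        rw [← h1, ← h2, hq1 k hk', hq2 k hk']
        simp
    refine ⟨(q.1.2.2 n).2 hne1, ?_⟩
    rw [(q.2.2.2 m).2 hne2, hlv]
  -- a limit of the sequences
  let T : Ultrafilter (ℕ → C) := U.map (fun q => ξ (lev q.1.1.1 (w n)))
  have hT : Λ ∈ T := by
    have : ∀ q : YS P w Λ ξ × YS P w Λ ξ, ξ (lev q.1.1.1 (w n)) ∈ Λ := fun q => hξ1 _
    exact Ultrafilter.mem_map.2 (Filter.univ_mem' this)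
  obtain ⟨l, hl, hTl⟩ := hΛ.isCompact.ultrafilter_le_nhds T (le_principal_iff.2 hT)
  have hTl' : Tendsto (fun q : YS P w Λ ξ × YS P w Λ ξ => ξ (lev q.1.1.1 (w n)))
      (U : Filter (YS P w Λ ξ × YS P w Λ ξ)) (𝓝 l) := hTl
  refine ⟨l, hl, ?_, ?_⟩
  · have hc1 : Continuous (fun q : YS P w Λ ξ × YS P w Λ ξ => q.1.1.2 n) :=
      (continuous_apply n).comp
        (continuous_snd.comp (continuous_subtype_val.comp continuous_fst))
    have t1 : Tendsto (fun q : YS P w Λ ξ × YS P w Λ ξ => q.1.1.2 n)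
      (U : Filter (YS P w Λ ξ × YS P w Λ ξ)) (𝓝 (p.1.1.2 n)) := (hc1.tendsto p).mono_left hUp
    have t2 : Tendsto (fun q : YS P w Λ ξ × YS P w Λ ξ => q.1.1.2 n)
        (U : Filter (YS P w Λ ξ × YS P w Λ ξ)) (𝓝 (l n)) :=
      (((continuous_apply n).tendsto l).comp hTl').congr'
        (hlev.mono fun q hq => hq.1.symm)
    exact tendsto_nhds_unique t2 t1
  · have hc1 : Continuous (fun q : YS P w Λ ξ × YS P w Λ ξ => q.2.1.2 m) :=
      (continuous_apply m).comp
        (continuous_snd.comp (continuous_subtype_val.comp continuous_snd))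
    have t1 : Tendsto (fun q : YS P w Λ ξ × YS P w Λ ξ => q.2.1.2 m)
      (U : Filter (YS P w Λ ξ × YS P w Λ ξ)) (𝓝 (p.2.1.2 m)) := (hc1.tendsto p).mono_left hUp
    have t2 : Tendsto (fun q : YS P w Λ ξ × YS P w Λ ξ => q.2.1.2 m)
        (U : Filter (YS P w Λ ξ × YS P w Λ ξ)) (𝓝 (l m)) :=
      (((continuous_apply m).tendsto l).comp hTl').congr'
        (hlev.mono fun q hq => hq.2.symm)
    exact tendsto_nhds_unique t2 t1

omit [T2Space C] in
/-- the pieces are compact -/
theorem isCompact_piece [SecondCountableTopology C] (hcl : IsClosed (YS P w Λ ξ)) (i j : ℕ) :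
    IsCompact {q : YS P w Λ ξ × YS P w Λ ξ | q.1.1.1.2 = i ∧ q.2.1.1.2 = j} := by
  have h1 : ∀ i : ℕ, IsCompact {q : YS P w Λ ξ | q.1.1.2 = i} := by
    intro i
    have h2 : IsCompact {z : A0 × (ℕ → C) | z.1.2 = i} := by
      have e1 : {z : A0 × (ℕ → C) | z.1.2 = i} =
          ((univ : Set (ℕ → Bool)) ×ˢ ({i} : Set ℕ)) ×ˢ (univ : Set (ℕ → C)) := by
        ext z
        simp
      rw [e1]
      exact (isCompact_univ.prod isCompact_singleton).prod isCompact_univ
    exact hcl.isClosedEmbedding_subtypeVal.isCompact_preimage h2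
  have e1 : {q : YS P w Λ ξ × YS P w Λ ξ | q.1.1.1.2 = i ∧ q.2.1.1.2 = j} =
      {q : YS P w Λ ξ | q.1.1.2 = i} ×ˢ {q : YS P w Λ ξ | q.1.1.2 = j} := by
    ext q
    simp
  rw [e1]
  exact (h1 i).prod (h1 j)

end

theorem polish_of_compact (C : Type) [TopologicalSpace C] [CompactSpace C]
    [TopologicalSpace.MetrizableSpace C] : SecondCountableTopology C ∧ PolishSpace C := by
  let _ := TopologicalSpace.metrizableSpaceMetric C
  have hsc : SecondCountableTopology C := EMetric.secondCountable_of_sigmaCompact C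
  exact ⟨hsc, inferInstance⟩

theorem t_BLOW : S_BLOW := by
  intro X _ _ E hE C _ _ _ _ _ P w fib nav κ Λ S hP0 hP hw hwr hfib hnav hκ hΛ hΛn hm1 hm2
    hi1 hi2 hs1 hs2 hr1 hr2 hr3 hr4 hr5 hr6
  classical
  obtain ⟨hsc, hpC⟩ := polish_of_compact C
  have hpB : PolishSpace Bool := (polish_of_compact Bool).2
  obtain ⟨ξ, hξ1, hξ2⟩ := exists_seq Λ hΛn
  have hcl : IsClosed (YS P w Λ ξ) := YS_closed hP hΛ
  have hpol : PolishSpace (YS P w Λ ξ) := hcl.polishSpace
  have hwP : ∀ n, (w n).1 ∈ P (w n).2 := by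
    intro n
    have : w n ∈ range w := ⟨n, rfl⟩
    rw [hwr] at this
    exact this.1
  have hcases : ∀ x, fib x = 0 ∨ ∃ n, fib x = n + 1 := by
    intro x
    rcases h : fib x with _ | n
    · exact Or.inl rfl
    · exact Or.inr ⟨n, rfl⟩
  let F0 : X → A0 × (ℕ → C) := fun x =>
    (nav x, fun n => if fib x = n + 1 then κ x else ξ (lev (nav x) (w n)) n)
  have hF0m : ∀ x, F0 x ∈ YS P w Λ ξ := by
    intro x
    refine ⟨?_, fun n => ⟨?_, ?_⟩⟩
    · show (nav x).1 ∈ P (nav x).2
      rcases hcases x with h | ⟨n, h⟩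
      · exact (hm2 x h).1
      · rw [(hm1 x n h).1]
        exact hwP n
    · show ∃ l ∈ Λ, l n = if fib x = n + 1 then κ x else ξ (lev (nav x) (w n)) n
      by_cases h : fib x = n + 1
      · rw [if_pos h]
        exact (hm1 x n h).2
      · rw [if_neg h]
        exact ⟨_, hξ1 _, rfl⟩
    · intro hne
      show (if fib x = n + 1 then κ x else ξ (lev (nav x) (w n)) n) = ξ (lev (nav x) (w n)) n
      rw [if_neg]
      intro h
      exact hne (hm1 x n h).1
  let F : X → YS P w Λ ξ := fun x => ⟨F0 x, hF0m x⟩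
  have hF1 : ∀ x, (F x).1.1 = nav x := fun x => rfl
  have hF2 : ∀ x n, fib x = n + 1 → (F x).1.2 n = κ x := by
    intro x n h
    show (if fib x = n + 1 then κ x else ξ (lev (nav x) (w n)) n) = κ x
    rw [if_pos h]
  have hFinj : Function.Injective F := by
    intro x y hxy
    have hnv : nav x = nav y := by rw [← hF1, hxy, hF1]
    rcases hcases x with h | ⟨n, h⟩
    · rcases hcases y with h' | ⟨m, h'⟩
      · exact hi1 x y h h' hnv
      · exfalso
        apply (hm2 x h).2
        rw [hnv, (hm1 y m h').1]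
        exact ⟨m, rfl⟩
    · rcases hcases y with h' | ⟨m, h'⟩
      · exfalso
        apply (hm2 y h').2
        rw [← hnv, (hm1 x n h).1]
        exact ⟨n, rfl⟩
      · have hnm : n = m := by
          apply hw
          rw [← (hm1 x n h).1, hnv, (hm1 y m h').1]
        subst hnm
        refine hi2 x y n h h' ?_
        rw [← hF2 x n h, hxy, hF2 y n h']
  have hFsurj : Function.Surjective F := by
    intro y
    by_cases hy : y.1.1 ∈ range w
    · obtain ⟨n, hn⟩ := hy
      obtain ⟨l, hl, hln⟩ := (y.2.2 n).1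
      obtain ⟨x, hx, hxl⟩ := hs2 n l hl
      have hnx : nav x = y.1.1 := by rw [(hm1 x n hx).1, hn]
      refine ⟨x, Subtype.ext (Prod.ext hnx ?_)⟩
      funext m
      show (if fib x = m + 1 then κ x else ξ (lev (nav x) (w m)) m) = y.1.2 m
      by_cases hm : fib x = m + 1
      · have hnm : n = m := by omega
        subst hnm
        rw [if_pos hm, hxl, hln]
      · rw [if_neg hm, hnx]
        refine ((y.2.2 m).2 ?_).symm
        intro h
        apply hm
        rw [hx, hw (hn.trans h)]
    · obtain ⟨x, hx, hnx⟩ := hs1 y.1.1 y.2.1 hy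
      refine ⟨x, Subtype.ext (Prod.ext hnx ?_)⟩
      funext m
      show (if fib x = m + 1 then κ x else ξ (lev (nav x) (w m)) m) = y.1.2 m
      rw [if_neg (by omega), hnx]
      refine ((y.2.2 m).2 ?_).symm
      exact fun h => hy ⟨m, h.symm⟩
  let mY : MeasurableSpace (YS P w Λ ξ) := borel _
  have bY : BorelSpace (YS P w Λ ξ) := ⟨rfl⟩
  have hF0meas : Measurable F0 := by
    refine hnav.prodMk (measurable_pi_lambda _ fun n => ?_)
    refine Measurable.ite (hfib (measurableSet_singleton (n + 1))) hκ ?_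
    exact (measurable_from_top (f := fun k => ξ k n)).comp ((measurable_lev (w n)).comp hnav)
  have hFmeas : Measurable F := by
    have h1 : MeasurableEmbedding (Subtype.val : YS P w Λ ξ → A0 × (ℕ → C)) :=
      hcl.isClosedEmbedding_subtypeVal.measurableEmbedding
    exact h1.measurable_comp_iff.1 hF0meas
  have hFe : MeasurableEmbedding F := hFmeas.measurableEmbedding hFinj
  let fe : X ≃ YS P w Λ ξ := Equiv.ofBijective F ⟨hFinj, hFsurj⟩
  let f : X ≃ᵐ YS P w Λ ξ :=
    { toEquiv := fe
      measurable_toFun := hFe.measurable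
      measurable_invFun := by
        intro t ht
        have := hFe.measurableSet_image.2 ht
        have e1 : F '' t = fe.symm ⁻¹' t := Equiv.image_eq_preimage_symm fe t
        rw [e1] at this
        exact this }
  have hfs : ∀ x, f.symm (F x) = x := fun x => f.symm_apply_apply x
  have hfs' : ∀ y, F (f.symm y) = y := fun y => f.apply_symm_apply y
  have hn : ∀ y, nav (f.symm y) = y.1.1 := fun y => by rw [← hF1, hfs']
  have hfib0 : ∀ y : YS P w Λ ξ, y.1.1 ∉ range w → fib (f.symm y) = 0 := by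
    intro y hy
    rcases hcases (f.symm y) with h | ⟨n, h⟩
    · exact h
    · exfalso
      apply hy
      rw [← hn, (hm1 _ n h).1]
      exact ⟨n, rfl⟩
  have hfib1 : ∀ (y : YS P w Λ ξ) n, y.1.1 = w n →
      fib (f.symm y) = n + 1 ∧ κ (f.symm y) = y.1.2 n := by
    intro y n hy
    have h0 : fib (f.symm y) = n + 1 := by
      rcases hcases (f.symm y) with h | ⟨m, h⟩
      · exfalso
        apply (hm2 _ h).2
        rw [hn, hy]
        exact ⟨n, rfl⟩
      · have h1 := (hm1 _ m h).1
        rw [hn, hy] at h1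
        rw [h, hw h1]
    refine ⟨h0, ?_⟩
    rw [← hF2 _ n h0, hfs']
  refine ⟨YS P w Λ ξ, inferInstance, hpol, mY, bY, f, ?_, ?_⟩
  · let G : (ℕ × ℕ × ℕ) ⊕ ℕ → Set (YS P w Λ ξ × YS P w Λ ξ) := fun o => match o with
      | Sum.inl (i, j, N) => {q | q.1.1.1 ∉ range w ∧ q.2.1.1 ∉ range w ∧
          q.1.1.1.2 = i ∧ q.2.1.1.2 = j ∧ ∀ n, N ≤ n → q.1.1.1.1 n = q.2.1.1.1 n}
      | Sum.inr k => {q | (f.symm q.1, f.symm q.2) ∈ S k}
    have hc2 : ∀ i j : ℕ, IsClosed
        {q : YS P w Λ ξ × YS P w Λ ξ | q.1.1.1.2 = i ∧ q.2.1.1.2 = j} := fun i j =>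
      (isCompact_piece hcl i j).isClosed
    have hGsub : ∀ o, ∃ i j, G o ⊆
        {q : YS P w Λ ξ × YS P w Λ ξ | q.1.1.1.2 = i ∧ q.2.1.1.2 = j} := by
      rintro (⟨i, j, N⟩ | k)
      · exact ⟨i, j, fun q hq => ⟨hq.2.2.1, hq.2.2.2.1⟩⟩
      · obtain ⟨n, m, h1, -⟩ := hr5 k
        refine ⟨(w n).2, (w m).2, fun q hq => ?_⟩
        have h2 := h1 _ hq
        exact ⟨by rw [← hn, (hm1 _ n h2.1).1], by rw [← hn, (hm1 _ m h2.2).1]⟩
    have hGc : ∀ o, IsCompact (closure (G o)) := by
      intro o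
      obtain ⟨i, j, hij⟩ := hGsub o
      exact (isCompact_piece hcl i j).of_isClosed_subset isClosed_closure
        (closure_minimal hij (hc2 i j))
    have hGE : ∀ o, ∀ p ∈ closure (G o), E (f.symm p.1) (f.symm p.2) := by
      rintro (⟨i, j, N⟩ | k) p hp
      · have hcl2 : p ∈ {q : YS P w Λ ξ × YS P w Λ ξ | (q.1.1.1.2 = i ∧ q.2.1.1.2 = j) ∧
            ∀ n, N ≤ n → q.1.1.1.1 n = q.2.1.1.1 n} := by
          have hcc : IsClosed {q : YS P w Λ ξ × YS P w Λ ξ | (q.1.1.1.2 = i ∧ q.2.1.1.2 = j) ∧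
              ∀ n, N ≤ n → q.1.1.1.1 n = q.2.1.1.1 n} := by
            refine IsClosed.inter (hc2 i j) ?_
            have e1 : {q : YS P w Λ ξ × YS P w Λ ξ |
                ∀ n, N ≤ n → q.1.1.1.1 n = q.2.1.1.1 n} =
                ⋂ n, ⋂ (_ : N ≤ n), {q | q.1.1.1.1 n = q.2.1.1.1 n} := by
              ext q
              simp
            show IsClosed {q : YS P w Λ ξ × YS P w Λ ξ |
                ∀ n, N ≤ n → q.1.1.1.1 n = q.2.1.1.1 n}
            rw [e1]
            refine isClosed_iInter fun n => isClosed_iInter fun _ => isClosed_eq ?_ ?_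
            · exact (continuous_apply n).comp (continuous_fst.comp (continuous_fst.comp
                (continuous_subtype_val.comp continuous_fst)))
            · exact (continuous_apply n).comp (continuous_fst.comp (continuous_fst.comp
                (continuous_subtype_val.comp continuous_snd)))
          refine closure_minimal ?_ hcc hp
          rintro q ⟨-, -, h3, h4, h5⟩
          exact ⟨⟨h3, h4⟩, h5⟩
        obtain ⟨⟨hi, hj⟩, hN⟩ := hcl2
        by_cases h1 : p.1.1.1 ∈ range w
        · have h2 : p.2.1.1 ∈ range w := by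
            rw [hwr] at h1 ⊢
            obtain ⟨-, N', hN'⟩ := h1
            refine ⟨p.2.2.1, max N N', fun n hn => ?_⟩
            rw [← hN n (le_trans (le_max_left _ _) hn)]
            exact hN' n (le_trans (le_max_right _ _) hn)
          obtain ⟨n, hn1⟩ := h1
          obtain ⟨m, hm1'⟩ := h2
          obtain ⟨l, hl, hl1, hl2⟩ := closure_pairs hΛ hξ1 i j N n m p hp hn1.symm hm1'.symm hi hj hN
          have a1 := hfib1 p.1 n hn1.symm
          have a2 := hfib1 p.2 m hm1'.symm
          exact hr3 l hl _ _ n m a1.1 a2.1 (by rw [a1.2, hl1]) (by rw [a2.2, hl2])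
        · have h2 : p.2.1.1 ∉ range w := by
            intro h2
            apply h1
            rw [hwr] at h2 ⊢
            obtain ⟨-, N', hN'⟩ := h2
            refine ⟨p.1.2.1, max N N', fun n hn => ?_⟩
            rw [hN n (le_trans (le_max_left _ _) hn)]
            exact hN' n (le_trans (le_max_right _ _) hn)
          rw [hr1 _ _ (hfib0 _ h1) (hfib0 _ h2)]
          refine ⟨N, fun n hn' => ?_⟩
          rw [hn, hn]
          exact hN n hn'
      · obtain ⟨n, m, h1, h2⟩ := hr5 k
        have hcl2 : p ∈ {q : YS P w Λ ξ × YS P w Λ ξ | q.1.1.1 = w n ∧ q.2.1.1 = w m} := by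
          have hcc : IsClosed {q : YS P w Λ ξ × YS P w Λ ξ | q.1.1.1 = w n ∧ q.2.1.1 = w m} :=
            IsClosed.inter
              (isClosed_eq (continuous_fst.comp (continuous_subtype_val.comp continuous_fst))
                continuous_const)
              (isClosed_eq (continuous_fst.comp (continuous_subtype_val.comp continuous_snd))
                continuous_const)
          refine closure_minimal ?_ hcc hp
          intro q hq
          have h3 := h1 _ hq
          exact ⟨by rw [← hn, (hm1 _ n h3.1).1], by rw [← hn, (hm1 _ m h3.2).1]⟩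
        have a1 := hfib1 p.1 n hcl2.1
        have a2 := hfib1 p.2 m hcl2.2
        refine h2 _ _ a1.1 a2.1 ?_
        rw [a1.2, a2.2]
        have hcont : Continuous (fun q : YS P w Λ ξ × YS P w Λ ξ => (q.1.1.2 n, q.2.1.2 m)) :=
          ((continuous_apply n).comp
            (continuous_snd.comp (continuous_subtype_val.comp continuous_fst))).prodMk
          ((continuous_apply m).comp
            (continuous_snd.comp (continuous_subtype_val.comp continuous_snd)))
        refine map_mem_closure (f := fun q : YS P w Λ ξ × YS P w Λ ξ => (q.1.1.2 n, q.2.1.2 m))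
          hcont hp ?_
        intro q hq
        have h3 := h1 _ hq
        refine ⟨(f.symm q.1, f.symm q.2), hq, ?_⟩
        have b1 := hF2 _ n h3.1
        have b2 := hF2 _ m h3.2
        rw [hfs'] at b1 b2
        exact Prod.ext b1.symm b2.symm
    obtain ⟨d, hd⟩ := exists_surjective_nat ((ℕ × ℕ × ℕ) ⊕ ℕ)
    refine ⟨fun n => closure (G (d n)), fun n => hGc _, ?_⟩
    ext p
    simp only [mem_iUnion]
    constructor
    · intro hp
      have hp' : E (f.symm p.1) (f.symm p.2) := hp
      have key : ∃ o, p ∈ G o := by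
        rcases hcases (f.symm p.1) with h | ⟨n, h⟩
        · have h' : fib (f.symm p.2) = 0 := by
            by_contra hcon
            exact hr2 _ _ h hcon hp'
          obtain ⟨N, hN⟩ := (hr1 _ _ h h').1 hp'
          refine ⟨Sum.inl (p.1.1.1.2, p.2.1.1.2, N), ?_, ?_, rfl, rfl, fun n hn' => ?_⟩
          · rw [← hn]; exact (hm2 _ h).2
          · rw [← hn]; exact (hm2 _ h').2
          · rw [← hn, ← hn]; exact hN n hn'
        · obtain ⟨k, hk⟩ := hr4 _ _ n h hp'
          exact ⟨Sum.inr k, hk⟩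
      obtain ⟨o, ho⟩ := key
      obtain ⟨n, rfl⟩ := hd o
      exact ⟨n, subset_closure ho⟩
    · rintro ⟨n, hn'⟩
      exact hGE _ p hn'
  · intro y
    rw [dense_iff_inter_open]
    intro U hU ⟨y0, hy0⟩
    obtain ⟨O, hO, rfl⟩ := isOpen_induced_iff.1 hU
    obtain ⟨u, i, k, hu⟩ := exists_over hP hw hξ2 O hO y0.1 y0.2 hy0
    rcases hcases (f.symm y) with h | ⟨n, h⟩
    · -- a point which is not blown up
      have hnw := (hm2 _ h).2
      have hnP := (hm2 _ h).1
      let v : ℕ → Bool := fun m => if m < k then u m else (nav (f.symm y)).1 m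
      have hv : v ∈ cylinder u k := by
        rw [mem_cylinder_iff]
        intro m hm
        simp only [v, if_pos hm]
      have hvP := (hu v hv).1
      have hvw : ((v, i) : A0) ∉ range w := by
        intro hcon
        rw [hwr] at hcon
        obtain ⟨-, N, hN⟩ := hcon
        apply hnw
        rw [hwr]
        refine ⟨hnP, max N k, fun m hm => ?_⟩
        have h1 : v m = (nav (f.symm y)).1 m := by
          have : ¬ m < k := by
            have := le_max_right N k
            omega
          simp only [v, if_neg this]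
        rw [← h1]
        exact hN m (le_trans (le_max_left _ _) hm)
      obtain ⟨x', hx', hnx'⟩ := hs1 (v, i) hvP hvw
      refine ⟨F x', (hu v hv).2 _ (F x').2 hnx', ?_⟩
      show E (f.symm y) (f.symm (F x'))
      rw [hfs, hr1 _ _ h hx']
      refine ⟨k, fun m hm => ?_⟩
      rw [hnx']
      show _ = v m
      have : ¬ m < k := by omega
      simp only [v, if_neg this]
    · let v : ℕ → Bool := fun m => if m < k then u m else false
      have hv : v ∈ cylinder u k := by
        rw [mem_cylinder_iff]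
        intro m hm
        simp only [v, if_pos hm]
      have hvP := (hu v hv).1
      have hvw : ((v, i) : A0) ∈ range w := by
        rw [hwr]
        refine ⟨hvP, k, fun m hm => ?_⟩
        have : ¬ m < k := by omega
        simp only [v, if_neg this]
      obtain ⟨m, hm⟩ := hvw
      obtain ⟨x', hx', hfx'⟩ := hr6 _ n m h
      refine ⟨F x', (hu v hv).2 _ (F x').2 ?_, ?_⟩
      · show nav x' = (v, i)
        rw [(hm1 _ m hfx').1, hm]
      · show E (f.symm y) (f.symm (F x'))
        rw [hfs]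
        exact hx'

end Pool.Agent.R838.KS
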